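import Pool.Agent.Helper15.BP.Slope

/-!
# The iteration of the contraction theorem (project BP, MP_a4e7e3_co)

* `power_law`: the recursion `Contr (8κ) σ → Contr κ (θσ + Cκ)` gives `Contr κ (C' κ^c)`;
* `slope_add` (Lemma S): if `A` has slopes `≤ κ` then `A + A` has slopes `≤ σ κ`, `σ` the contraction
  constant at `κ`, because `(A + A) mod H = (A mod H) + (A mod H)`;
* `iter_of_power`: doubly exponential decay of the deficiency of `2^j A`.
-/

set_option autoImplicit false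

namespace Pool.Agent.Helper15.BP

open Finset

theorem Contr.mono {lam σ σ' : ℝ} (h : Contr lam σ) (hσ : σ ≤ σ') : Contr lam σ' := by
  intro G _ _ h2 A hA
  refine (h G h2 A hA).trans ?_
  exact mul_le_mul_of_nonneg_right hσ (A.D_nonneg ⊥)

theorem Contr.one (lam : ℝ) : Contr lam 1 := by
  intro G _ _ _ A _
  rw [one_mul]
  exact A.D_add_le A ⊥

theorem ContrR.mono {lam σ σ' : ℝ} (h : ContrR lam σ) (hσ : σ ≤ σ') : ContrR lam σ' := by
  intro G _ _ h2 A hA
  refine (h G h2 A hA).trans ?_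
  exact mul_le_mul_of_nonneg_right hσ (A.D_nonneg ⊥)

/-- The recursion gives a power law. -/
theorem power_law
    (hrec : ∃ θ C : ℝ, θ < 1 ∧ ∀ κ σ : ℝ, 0 ≤ κ → κ ≤ 1 → 0 ≤ σ → σ ≤ 1 →
      Contr (8 * κ) σ → Contr κ (θ * σ + C * κ)) :
    ∃ C c : ℝ, 1 ≤ C ∧ 0 < c ∧ c ≤ 1 ∧ ∀ κ : ℝ, 0 < κ → κ ≤ 1 → Contr κ (C * κ ^ c) := by
  obtain ⟨θ0, C0, hθ0, hrec⟩ := hrec
  set θ : ℝ := max θ0 (1 / 2) with hθdef
  have hθ1 : θ < 1 := max_lt hθ0 (by norm_num)
  have hθ2 : 1 / 2 ≤ θ := le_max_right _ _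
  have hθpos : 0 < θ := by linarith
  set q : ℝ := (1 + θ) / (2 * θ) with hq
  have hq1 : 1 < q := by
    rw [hq, lt_div_iff₀ (by positivity)]
    linarith
  have hq2 : q ≤ 8 := by
    rw [hq, div_le_iff₀ (by positivity)]
    linarith
  set c : ℝ := Real.log q / Real.log 8 with hc
  have hl8 : 0 < Real.log 8 := Real.log_pos (by norm_num)
  have hc0 : 0 < c := div_pos (Real.log_pos hq1) hl8
  have hc1 : c ≤ 1 := by
    rw [hc, div_le_one hl8]
    exact Real.log_le_log (by linarith) hq2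
  have h8c : (8 : ℝ) ^ c = q := by
    rw [Real.rpow_def_of_pos (by norm_num), hc, mul_div_cancel₀ _ hl8.ne',
      Real.exp_log (by linarith)]
  have hθq : θ * q = (1 + θ) / 2 := by
    rw [hq]
    field_simp
  set C : ℝ := max 8 (C0 * 2 / (1 - θ)) with hC
  have hC8 : 8 ≤ C := le_max_left _ _
  have hCC : C0 ≤ C * ((1 - θ) / 2) := by
    have h1 : C0 * 2 / (1 - θ) ≤ C := le_max_right _ _
    rw [div_le_iff₀ (by linarith)] at h1
    linarith
  refine ⟨C, c, by linarith, hc0, hc1, ?_⟩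
  have main : ∀ m : ℕ, ∀ κ : ℝ, 0 < κ → κ ≤ 1 → 1 < 8 ^ (m + 1) * κ → Contr κ (C * κ ^ c) := by
    intro m
    induction m with
    | zero =>
      intro κ h0 h1 h2
      rw [zero_add, pow_one] at h2
      refine (Contr.one κ).mono ?_
      have h3 : (1 / 8 : ℝ) ≤ κ ^ c := by
        calc (1 / 8 : ℝ) ≤ κ := by linarith
          _ = κ ^ (1 : ℝ) := (Real.rpow_one κ).symm
          _ ≤ κ ^ c := Real.rpow_le_rpow_of_exponent_ge h0 h1 hc1
      nlinarith
    | succ m ih =>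
      intro κ h0 h1 h2
      by_cases h3 : κ ≤ 1 / 8
      · have h4 := ih (8 * κ) (by linarith) (by linarith) (by
          rw [pow_succ] at h2
          linarith)
        set σ : ℝ := min 1 (C * (8 * κ) ^ c) with hσ
        have h5 : 0 ≤ C * (8 * κ) ^ c := by positivity
        have h6 : Contr (8 * κ) σ := by
          rcases min_choice 1 (C * (8 * κ) ^ c) with h | h
          · rw [hσ, h]
            exact Contr.one _
          · rw [hσ, h]
            exact h4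
        have h7 : 0 ≤ σ := le_min zero_le_one h5
        refine (hrec κ σ h0.le h1 h7 (min_le_left _ _) h6).mono ?_
        have h8 : θ0 * σ ≤ θ * (C * (8 * κ) ^ c) := by
          calc θ0 * σ ≤ θ * σ := mul_le_mul_of_nonneg_right (le_max_left _ _) h7
            _ ≤ θ * (C * (8 * κ) ^ c) := mul_le_mul_of_nonneg_left (min_le_right _ _) hθpos.le
        have h9 : (8 * κ) ^ c = q * κ ^ c := by
          rw [Real.mul_rpow (by norm_num) h0.le, h8c]
        have h10 : κ ≤ κ ^ c := by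
          calc κ = κ ^ (1 : ℝ) := (Real.rpow_one κ).symm
            _ ≤ κ ^ c := Real.rpow_le_rpow_of_exponent_ge h0 h1 hc1
        have h11 : C0 * κ ≤ C * ((1 - θ) / 2) * κ ^ c := by
          calc C0 * κ ≤ C * ((1 - θ) / 2) * κ := mul_le_mul_of_nonneg_right hCC h0.le
            _ ≤ C * ((1 - θ) / 2) * κ ^ c := by
              refine mul_le_mul_of_nonneg_left h10 ?_
              have : 0 ≤ C := by linarith
              have : 0 ≤ (1 - θ) / 2 := by linarith
              positivity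
        rw [h9] at h8
        have h12 : θ * (C * (q * κ ^ c)) = C * ((1 + θ) / 2) * κ ^ c := by
          rw [← hθq]
          ring
        rw [h12] at h8
        calc θ0 * σ + C0 * κ ≤ C * ((1 + θ) / 2) * κ ^ c + C * ((1 - θ) / 2) * κ ^ c :=
              add_le_add h8 h11
          _ = C * κ ^ c := by ring
      · rw [not_le] at h3
        refine (Contr.one κ).mono ?_
        have h4 : (1 / 8 : ℝ) ≤ κ ^ c := by
          calc (1 / 8 : ℝ) ≤ κ := h3.le
            _ = κ ^ (1 : ℝ) := (Real.rpow_one κ).symm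
            _ ≤ κ ^ c := Real.rpow_le_rpow_of_exponent_ge h0 h1 hc1
        nlinarith
  intro κ h0 h1
  obtain ⟨m, hm⟩ := pow_unbounded_of_one_lt (1 / κ) (by norm_num : (1 : ℝ) < 8)
  refine main m κ h0 h1 ?_
  rw [div_lt_iff₀ h0] at hm
  have h2 : (8 : ℝ) ^ m ≤ 8 ^ (m + 1) := pow_le_pow_right₀ (by norm_num) (Nat.le_succ m)
  calc (1 : ℝ) < 8 ^ m * κ := hm
    _ ≤ 8 ^ (m + 1) * κ := mul_le_mul_of_nonneg_right h2 h0.le

/-! ### Quotients -/

namespace Fam

variable {G : Type} [AddCommGroup G]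

theorem mod_c (A : Fam G) (V : AddSubgroup G) (K : AddSubgroup (G ⧸ V)) :
    (A.mod V).c K = A.c (K.comap (QuotientAddGroup.mk' V)) := by
  unfold c
  congr 1
  refine Ent_congr fun o o' => ?_
  simp only [mod, Prod.mk.injEq, mk_eq_iff, AddSubgroup.mem_comap]
  rfl

theorem mod_D (A : Fam G) (V : AddSubgroup G) (K : AddSubgroup (G ⧸ V)) :
    (A.mod V).D K = A.D (K.comap (QuotientAddGroup.mk' V)) := by
  unfold D
  rw [mod_c, AddSubgroup.index_comap_of_surjective K (QuotientAddGroup.mk'_surjective V)]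

theorem comap_bot (V : AddSubgroup G) :
    (⊥ : AddSubgroup (G ⧸ V)).comap (QuotientAddGroup.mk' V) = V := by
  ext x
  rw [AddSubgroup.mem_comap, AddSubgroup.mem_bot]
  exact QuotientAddGroup.eq_zero_iff x

theorem mod_D_bot (A : Fam G) (V : AddSubgroup G) : (A.mod V).D ⊥ = A.D V := by
  rw [mod_D, comap_bot]

theorem add_mod (A B : Fam G) (V : AddSubgroup G) :
    (A.add B).mod V = (A.mod V).add (B.mod V) := rfl

end Fam

theorem comap_sup_dbl {G : Type} [AddCommGroup G] (V : AddSubgroup G) (K : AddSubgroup (G ⧸ V)) :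
    (K ⊔ dbl (G ⧸ V)).comap (QuotientAddGroup.mk' V) =
      K.comap (QuotientAddGroup.mk' V) ⊔ dbl G := by
  have h1 : dbl (G ⧸ V) = (dbl G).map (QuotientAddGroup.mk' V) := by
    ext x
    rw [mem_dbl, AddSubgroup.mem_map]
    constructor
    · rintro ⟨y, rfl⟩
      obtain ⟨y, rfl⟩ := QuotientAddGroup.mk'_surjective V y
      exact ⟨2 • y, (mem_dbl _).2 ⟨y, rfl⟩, map_nsmul _ _ _⟩
    · rintro ⟨y, hy, rfl⟩
      obtain ⟨z, rfl⟩ := (mem_dbl _).1 hy
      exact ⟨QuotientAddGroup.mk' V z, (map_nsmul _ _ _).symm⟩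
  have h2 : K = (K.comap (QuotientAddGroup.mk' V)).map (QuotientAddGroup.mk' V) :=
    (AddSubgroup.map_comap_eq_self_of_surjective (QuotientAddGroup.mk'_surjective V) K).symm
  rw [h1]
  conv_lhs => rw [h2]
  rw [← AddSubgroup.map_sup, AddSubgroup.comap_map_eq, QuotientAddGroup.ker_mk']
  refine sup_eq_left.2 ?_
  intro x hx
  refine (le_sup_left : _ ≤ K.comap (QuotientAddGroup.mk' V) ⊔ dbl G) ?_
  rw [AddSubgroup.mem_comap]
  have : QuotientAddGroup.mk' V x = 0 := (QuotientAddGroup.eq_zero_iff x).2 hx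
  rw [this]
  exact K.zero_mem

/-- Slopes of the quotient family. -/
theorem Slope.mod {G : Type} [AddCommGroup G] {A : Fam G} {κ : ℝ} (h : Slope A κ)
    (V : AddSubgroup G) : Slope (A.mod V) κ := by
  intro K
  rw [Fam.mod_D, ← AddSubgroup.index_comap_of_surjective (K ⊔ dbl (G ⧸ V))
    (QuotientAddGroup.mk'_surjective V), comap_sup_dbl]
  exact h _

theorem quot_two_pow {G : Type} [AddCommGroup G] (V : AddSubgroup G)
    (h2 : ∃ k : ℕ, ∀ x : G, (2 ^ k : ℕ) • x = 0) :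
    ∃ k : ℕ, ∀ x : G ⧸ V, (2 ^ k : ℕ) • x = 0 := by
  obtain ⟨k, hk⟩ := h2
  refine ⟨k, ?_⟩
  intro x
  obtain ⟨x, rfl⟩ := QuotientAddGroup.mk'_surjective V x
  rw [← map_nsmul, hk, map_zero]

/-- The contraction theorem modulo a subgroup. -/
theorem ContrR.mod_le {κ σ : ℝ} (h : ContrR κ σ) {G : Type} [AddCommGroup G] [Finite G]
    (h2 : ∃ k : ℕ, ∀ x : G, (2 ^ k : ℕ) • x = 0) {A : Fam G} (hA : Slope A κ)
    (V : AddSubgroup G) : (A.add A).D V ≤ σ * A.D V := by
  have h1 := h (G ⧸ V) (quot_two_pow V h2) (A.mod V) (hA.mod V)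
  rw [← Fam.add_mod, Fam.mod_D_bot, Fam.mod_D_bot] at h1
  exact h1

/-- **Lemma S.** The slopes contract too. -/
theorem slope_add {κ σ : ℝ} (hσ : 0 ≤ σ) (h : ContrR κ σ) {G : Type} [AddCommGroup G] [Finite G]
    (h2 : ∃ k : ℕ, ∀ x : G, (2 ^ k : ℕ) • x = 0) {A : Fam G} (hA : Slope A κ) :
    Slope (A.add A) (σ * κ) := by
  intro H
  refine (h.mod_le h2 hA H).trans ?_
  rw [mul_assoc]
  exact mul_le_mul_of_nonneg_left (hA H) hσ

/-- **Iteration.** Doubly exponential decay of the deficiency of `2^j A`. -/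
theorem iter_of_power {C c : ℝ} (hC : 1 ≤ C) (hc : 0 < c)
    (h : ∀ κ : ℝ, 0 < κ → κ ≤ 1 → ContrR κ (C * κ ^ c)) :
    ∀ (G : Type) [AddCommGroup G] [Finite G], (∃ k : ℕ, ∀ x : G, (2 ^ k : ℕ) • x = 0) →
      ∀ (A : Fam G) (X : ℝ), 0 < X → X ≤ 1 → Slope A (X / C ^ (1 / c)) → ∀ j : ℕ,
        Slope (twoPow A j) (X ^ ((1 + c) ^ j) / C ^ (1 / c)) ∧
        (twoPow A j).D ⊥ ≤ X ^ ((1 + c) ^ j - 1) * A.D ⊥ := by
  intro G _ _ h2 A X hX0 hX1 hA j
  have hC0 : 0 < C := by linarith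
  set C1 : ℝ := C ^ (1 / c) with hC1
  have hC1one : 1 ≤ C1 := Real.one_le_rpow hC (by positivity)
  have hC1pos : 0 < C1 := by linarith
  have hC1c : C1 ^ c = C := by
    rw [hC1, ← Real.rpow_mul hC0.le, one_div, inv_mul_cancel₀ hc.ne', Real.rpow_one]
  induction j with
  | zero =>
    refine ⟨?_, ?_⟩
    · simpa [twoPow] using hA
    · simp [twoPow]
  | succ j ih =>
    obtain ⟨ih1, ih2⟩ := ih
    set e : ℝ := (1 + c) ^ j with he
    have he0 : 0 < e := by positivity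
    have hXe0 : 0 < X ^ e := Real.rpow_pos_of_pos hX0 _
    have hXe1 : X ^ e ≤ 1 := Real.rpow_le_one hX0.le hX1 he0.le
    have hκ0 : 0 < X ^ e / C1 := div_pos hXe0 hC1pos
    have hκ1 : X ^ e / C1 ≤ 1 := by
      rw [div_le_one hC1pos]
      linarith
    have hcon := h _ hκ0 hκ1
    have hs : C * (X ^ e / C1) ^ c = X ^ (c * e) := by
      rw [Real.div_rpow hXe0.le hC1pos.le, hC1c, ← Real.rpow_mul hX0.le, mul_comm e c]
      field_simp
    rw [hs] at hcon
    have hσ : 0 ≤ X ^ (c * e) := (Real.rpow_pos_of_pos hX0 _).le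
    have hes : (1 + c) ^ (j + 1) = c * e + e := by
      rw [he]
      ring
    refine ⟨?_, ?_⟩
    · have h3 := slope_add hσ hcon h2 ih1
      have h4 : X ^ (c * e) * (X ^ e / C1) = X ^ ((1 + c) ^ (j + 1)) / C1 := by
        rw [hes, Real.rpow_add hX0]
        ring
      rw [h4] at h3
      exact h3
    · have h3 := hcon G h2 (twoPow A j) ih1
      refine h3.trans ?_
      have h4 : X ^ ((1 + c) ^ (j + 1) - 1) = X ^ (c * e) * X ^ (e - 1) := by
        rw [← Real.rpow_add hX0, hes]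
        congr 1
        ring
      rw [h4, mul_assoc]
      exact mul_le_mul_of_nonneg_left ih2 hσ

/-- The iteration from the recursion and Lemma R'. -/
theorem iter
    (hrec : ∃ θ C : ℝ, θ < 1 ∧ ∀ κ σ : ℝ, 0 ≤ κ → κ ≤ 1 → 0 ≤ σ → σ ≤ 1 →
      Contr (8 * κ) σ → Contr κ (θ * σ + C * κ))
    (hR : ∀ κ σ : ℝ, 0 ≤ κ → 0 ≤ σ → Contr κ σ → ContrR κ σ) :
    ∃ C₀ c : ℝ, 1 ≤ C₀ ∧ 0 < c ∧ ∀ (G : Type) [AddCommGroup G] [Finite G],
      (∃ k : ℕ, ∀ x : G, (2 ^ k : ℕ) • x = 0) →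
      ∀ (A : Fam G) (X : ℝ), 0 < X → X ≤ 1 → Slope A (X / C₀) → ∀ j : ℕ,
        Slope (twoPow A j) (X ^ ((1 + c) ^ j) / C₀) ∧
        (twoPow A j).D ⊥ ≤ X ^ ((1 + c) ^ j - 1) * A.D ⊥ := by
  obtain ⟨C, c, hC, hc, -, h⟩ := power_law hrec
  refine ⟨C ^ (1 / c), c, Real.one_le_rpow hC (by positivity), hc, ?_⟩
  exact iter_of_power hC hc (fun κ h0 h1 => hR κ _ h0.le (by positivity) (h κ h0 h1))

end Pool.Agent.Helper15.BP
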